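import Pool.Agent.Helper1.UQ.Defs
import Pool.Agent.Helper30.RCU.InfDefs

/-!
# Project UQ (MP_e3e162_pr): the final statement

`IsRandomCluster` (Pool/Agent/Helper30/RCU/InfDefs.lean) is the definition of the problem file: a
probability measure on the configurations (sets of open edges, product sigma-algebra) whose
conditional law on every finite edge set `F`, given the configuration off `F`, has the weights
`p^{open} (1-p)^{closed} q^{clusters which meet the ends of F}`.
-/

set_option autoImplicit false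

open MeasureTheory

namespace Pool.Agent.Helper98.UQ

open Pool.Agent.Helper30.RCU

universe u

/-- The set of the edges of `G` with exactly one endpoint in `S`. -/
def edgeBoundary {V : Type u} (G : SimpleGraph V) (S : Finset V) : Set (Sym2 V) :=
  {e | e ∈ G.edgeSet ∧ ∃ x y : V, e = s(x, y) ∧ x ∈ S ∧ y ∉ S}

/-- `G` is amenable: the infimum of `|∂S| / |S|` over the finite nonempty sets `S` of vertices is
`0`. -/
def Amenable {V : Type u} (G : SimpleGraph V) : Prop :=
  ⨅ S : {S : Finset V // S.Nonempty}, ((edgeBoundary G S.1).ncard : ℝ) / (S.1.card : ℝ) = 0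

/-- The final statement (Q1 of MP_e3e162_pr). -/
def StFIN : Prop := ∀ (V : Type u) [Infinite V] (G : SimpleGraph V), G.Connected →
    (∀ v, (G.neighborSet v).Finite) → (∀ x y : V, ∃ g : G ≃g G, g x = y) → Amenable G →
    ∀ (p q : ℝ), 0 ≤ p → p ≤ 1 → 1 ≤ q → q ≤ 2 →
    ∃! μ : Measure (Set G.edgeSet), IsRandomCluster G p q μ

/-- the same with the form `Amen` of amenability which is used in the proof -/
def StFIN0 : Prop := ∀ (V : Type u) [Infinite V] (G : SimpleGraph V), G.Connected →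
    (∀ v, (G.neighborSet v).Finite) → (∀ x y : V, ∃ g : G ≃g G, g x = y) → Helper1.UQ.Amen G →
    ∀ (p q : ℝ), 0 ≤ p → p ≤ 1 → 1 ≤ q → q ≤ 2 →
    ∃! μ : Measure (Set G.edgeSet), IsRandomCluster G p q μ

theorem edgeBoundary_ncard {V : Type u} (G : SimpleGraph V)
    (hlf : ∀ v, (G.neighborSet v).Finite) (S : Finset V) :
    (edgeBoundary G S).ncard = (Helper1.UQ.bd G S).card := by
  classical
  have hfin : {e : G.edgeSet | ∃ v ∈ (e : Sym2 V), v ∈ S}.Finite := by
    have h1 : (⋃ v ∈ S, (fun w : V => s(v, w)) '' (G.neighborSet v)).Finite :=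
      Set.Finite.biUnion S.finite_toSet fun v _ => (hlf v).image _
    refine Set.Finite.of_finite_image (f := Subtype.val) (h1.subset ?_)
      Subtype.val_injective.injOn
    rintro _ ⟨⟨e, he⟩, ⟨v, hv, hvS⟩, rfl⟩
    obtain ⟨w, rfl⟩ := hv
    exact Set.mem_biUnion hvS ⟨w, he, rfl⟩
  have key : edgeBoundary G S =
      ((Helper1.UQ.bd G S).image (Subtype.val : G.edgeSet → Sym2 V) : Finset (Sym2 V)) := by
    ext e
    simp only [Finset.coe_image, Set.mem_image, Finset.mem_coe, Helper1.UQ.bd, Helper1.UQ.te,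
      dif_pos hfin, Finset.mem_filter, Set.Finite.mem_toFinset, Set.mem_ofPred_eq, edgeBoundary]
    constructor
    · rintro ⟨he, x, y, rfl, hx, hy⟩
      exact ⟨⟨s(x, y), he⟩, ⟨⟨x, Sym2.mem_mk_left x y, hx⟩, y, Sym2.mem_mk_right x y, hy⟩, rfl⟩
    · rintro ⟨⟨e, he⟩, ⟨⟨x, hxe, hx⟩, y, hye, hy⟩, rfl⟩
      refine ⟨he, x, y, ?_, hx, hy⟩
      have hxy : x ≠ y := fun h => hy (h ▸ hx)
      exact ((Sym2.mem_and_mem_iff hxy).1 ⟨hxe, hye⟩)
  rw [key, Set.ncard_coe_finset, Finset.card_image_of_injective _ Subtype.val_injective]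

theorem amen_of_amenable {V : Type u} [Nonempty V] (G : SimpleGraph V)
    (hlf : ∀ v, (G.neighborSet v).Finite) (h : Amenable G) : Helper1.UQ.Amen G := by
  classical
  intro ε hε
  have : Nonempty {S : Finset V // S.Nonempty} :=
    ⟨⟨{Classical.arbitrary V}, Finset.singleton_nonempty _⟩⟩
  have h' : (⨅ S : {S : Finset V // S.Nonempty},
      ((edgeBoundary G S.1).ncard : ℝ) / (S.1.card : ℝ)) < ε := by
    rw [show _ = (0 : ℝ) from h]; exact hε
  obtain ⟨⟨S, hS⟩, hlt⟩ := exists_lt_of_ciInf_lt h'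
  refine ⟨S, hS, ?_⟩
  have hc : (0 : ℝ) < S.card := by exact_mod_cast hS.card_pos
  rw [edgeBoundary_ncard G hlf] at hlt
  have := (div_lt_iff₀ hc).1 hlt
  exact this.le

theorem fin_of_fin0 (h : StFIN0.{u}) : StFIN.{u} := by
  intro V _ G hc hlf htr ham p q hp0 hp1 hq1 hq2
  exact h V G hc hlf htr (amen_of_amenable G hlf ham) p q hp0 hp1 hq1 hq2

end Pool.Agent.Helper98.UQ
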