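import Pool.Agent.Helper1.UQ.St1
import Pool.Agent.Helper30.RCU.Main

/-!
# Project UQ (MP_e3e162_pr): from `w8 ≤ f8` to the gap condition

`gap_of_le`: if `w8 G p q e ≤ f8 G p q e` then for every `ε > 0` there is a finite edge set `F ∋ e`
such that the wired and the free probability in `F` that `e` is open differ by at most `ε`.
-/

set_option autoImplicit false

open Finset

namespace Pool.Agent.Helper98.UQ

open Classical Pool.Agent.Helper30.RCU Pool.Agent.Helper1.UQ

universe u

variable {V : Type u} {G : SimpleGraph V}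

lemma oe_nonneg {ι : Type u} (e : ι) (ω : Finset ι) : 0 ≤ oe e ω := by
  unfold oe; split_ifs <;> norm_num

lemma oe_le_one {ι : Type u} (e : ι) (ω : Finset ι) : oe e ω ≤ 1 := by
  unfold oe; split_ifs <;> norm_num

lemma oe_mono {ι : Type u} (e : ι) : Monotone (oe e) := by
  intro a b h
  unfold oe
  split_ifs with h1 h2 h2
  · exact le_rfl
  · exact absurd (h h1) h2
  · exact zero_le_one
  · exact le_rfl

lemma oe_insert {ι : Type u} {i : DecidableEq ι} {e x : ι} (h : x ≠ e) (ω : Finset ι) :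
    oe e (@Insert.insert _ _ (@Finset.instInsert _ i) x ω) = oe e ω := by
  unfold oe
  by_cases he : e ∈ ω
  · rw [if_pos he, if_pos ((mem_insert_any i).mpr (Or.inr he))]
  · rw [if_neg he, if_neg fun h' => ((mem_insert_any i).mp h').elim (fun h2 => h h2.symm) he]

lemma pr_nonneg {p t : ℝ} (hp : 0 ≤ p) (ht : 0 ≤ t) (e : GE G) : 0 ≤ pr G p t e := by
  rcases e with e | e
  · exact hp
  · exact ht

lemma pr_le_one {p t : ℝ} (hp : p ≤ 1) (ht : t ≤ 1) (e : GE G) : pr G p t e ≤ 1 := by
  rcases e with e | e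
  · exact hp
  · exact ht

lemma mem_te (hlf : ∀ v, (G.neighborSet v).Finite) {I : Finset V} {e : G.edgeSet} :
    e ∈ te G I ↔ ∃ v ∈ (e : Sym2 V), v ∈ I := by
  have hfin : {e : G.edgeSet | ∃ v ∈ (e : Sym2 V), v ∈ I}.Finite := by
    have h1 : (⋃ v ∈ I, (fun w : V => s(v, w)) '' (G.neighborSet v)).Finite :=
      Set.Finite.biUnion I.finite_toSet fun v _ => (hlf v).image _
    refine Set.Finite.of_finite_image (f := Subtype.val) (h1.subset ?_)
      Subtype.val_injective.injOn
    rintro _ ⟨⟨e, he⟩, ⟨v, hv, hvS⟩, rfl⟩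
    obtain ⟨w, rfl⟩ := hv
    exact Set.mem_biUnion hvS ⟨w, he, rfl⟩
  unfold te
  rw [dif_pos hfin, Set.Finite.mem_toFinset]
  exact Iff.rfl

lemma mem_disjSum_empty_inl {α β : Type u} {A : Finset α} {a : α} :
    (Sum.inl a : α ⊕ β) ∈ A.disjSum (∅ : Finset β) ↔ a ∈ A := by
  rw [Finset.mem_disjSum]
  constructor
  · rintro (⟨b, hb, h⟩ | ⟨b, hb, h⟩)
    · cases h; exact hb
    · cases h
  · intro h
    exact Or.inl ⟨a, h, rfl⟩

lemma not_mem_disjSum_empty_inr {α β : Type u} {A : Finset α} {b : β} :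
    (Sum.inr b : α ⊕ β) ∉ A.disjSum (∅ : Finset β) := by
  rw [Finset.mem_disjSum]
  rintro (⟨c, _, h⟩ | ⟨c, hc, _⟩)
  · cases h
  · exact absurd hc (Finset.notMem_empty _)

/-- The wired probability decreases in the domain. -/
lemma wI_anti (hCTR : StCTR.{u}) (hlf : ∀ v, (G.neighborSet v).Finite) {p q : ℝ} (hp : 0 ≤ p)
    (hp1 : p ≤ 1) (hq : 1 ≤ q) {I I' : Finset V} (h : I ⊆ I') (e : G.edgeSet) :
    wI G p q I' e ≤ wI G p q I e := by
  have hP := pr_nonneg (G := G) hp (le_refl 0)
  have hP1 := pr_le_one (G := G) hp1 zero_le_one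
  unfold Pool.Agent.Helper1.UQ.wI eD
  have h1 := hCTR (Option V) (Option V) (GE G) (pI G I') (sg I) (pr G p 0) q hP hP1 hq
    ((insert e (te G I')).disjSum ∅) (oe (Sum.inl e)) (oe_nonneg _) (oe_mono _)
  refine h1.trans (le_of_eq ?_)
  have h2 : cm (pI G I') (sg I) = pI G I := by
    funext x
    unfold pI cm
    rw [Sym2.map_map]
    congr 1
    funext o
    rcases o with _ | v
    · rfl
    · simp only [Function.comp, sg, Option.bind_some]
      by_cases hv : v ∈ I
      · rw [if_pos (h hv), if_pos hv, Option.bind_some, if_pos hv]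
      · rw [if_neg hv]
        by_cases hv' : v ∈ I'
        · rw [if_pos hv', Option.bind_some, if_neg hv]
        · rw [if_neg hv', Option.bind_none]
  rw [h2]
  have h3 := ex_loops (φ := pI G I) hP hP1 hq ((insert e (te G I)).disjSum ∅)
    (((te G I') \ (insert e (te G I))).disjSum ∅) (oe (Sum.inl e)) ?_ ?_
  · rw [← h3]
    congr 1
    ext x
    rw [mem_union_any]
    rcases x with x | x
    · rw [mem_disjSum_empty_inl, mem_disjSum_empty_inl, mem_disjSum_empty_inl, mem_sdiff_any,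
        mem_insert_any, mem_insert_any]
      constructor
      · rintro (h4 | h4)
        · exact Or.inl (Or.inl h4)
        · by_cases h5 : x = e ∨ x ∈ te G I
          · exact Or.inl h5
          · exact Or.inr ⟨h4, h5⟩
      · rintro ((h4 | h4) | h4)
        · exact Or.inl h4
        · right
          rw [mem_te hlf] at h4 ⊢
          obtain ⟨v, hv, hvI⟩ := h4
          exact ⟨v, hv, h hvI⟩
        · exact Or.inr h4.1
    · exact ⟨fun h4 => absurd h4 not_mem_disjSum_empty_inr, fun h4 => by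
        rcases h4 with h4 | h4
        · exact absurd h4 not_mem_disjSum_empty_inr
        · exact absurd h4 not_mem_disjSum_empty_inr⟩
  · intro x hx
    rcases x with x | x
    · rw [mem_disjSum_empty_inl, mem_sdiff_any, mem_insert_any, mem_te hlf] at hx
      refine ⟨none, ?_⟩
      have hx2 : ∀ v ∈ (x : Sym2 V), v ∉ I := fun v hv hvI => by
        apply hx.2
        right
        rw [mem_te hlf]
        exact ⟨v, hv, hvI⟩
      obtain ⟨a, b, hab⟩ : ∃ a b, (x : Sym2 V) = s(a, b) := by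
        induction (x : Sym2 V) with
        | _ a b => exact ⟨a, b, rfl⟩
      have ha : a ∉ I := hx2 a (by rw [hab]; exact Sym2.mem_mk_left a b)
      have hb : b ∉ I := hx2 b (by rw [hab]; exact Sym2.mem_mk_right a b)
      show Sym2.map (sg I) (Sym2.map some (x : Sym2 V)) = _
      rw [hab, Sym2.map_mk, Sym2.map_mk]
      simp [sg, ha, hb]
    · exact absurd hx not_mem_disjSum_empty_inr
  · intro x hx ω
    have hxe : x ≠ Sum.inl e := by
      rintro rfl
      rw [mem_disjSum_empty_inl, mem_sdiff_any, mem_insert_any] at hx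
      exact hx.2 (Or.inl rfl)
    exact oe_insert hxe ω

/-- The free probability increases in the domain. -/
lemma fI_mono (hlf : ∀ v, (G.neighborSet v).Finite) {p q : ℝ} (hp : 0 ≤ p)
    (hp1 : p ≤ 1) (hq : 1 ≤ q) {I I' : Finset V} (h : I ⊆ I') (e : G.edgeSet) :
    fI G p q I e ≤ fI G p q I' e := by
  unfold fI
  refine ex_mono_set (pr_nonneg (G := G) hp (le_refl 0)) (pr_le_one (G := G) hp1 zero_le_one) hq ?_
    (oe_nonneg _) (oe_mono _)
  intro x hx
  rcases x with x | x
  · rw [mem_disjSum_empty_inl, mem_te hlf] at hx ⊢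
    obtain ⟨v, hv, hvI⟩ := hx
    exact ⟨v, hv, h hvI⟩
  · exact absurd hx not_mem_disjSum_empty_inr

lemma fI_le_one {p q : ℝ} (hp : 0 ≤ p) (hp1 : p ≤ 1) (hq : 1 ≤ q) (I : Finset V) (e : G.edgeSet) :
    fI G p q I e ≤ 1 := by
  unfold fI
  have hP := pr_nonneg (G := G) hp (le_refl 0)
  have hP1 := pr_le_one (G := G) hp1 zero_le_one
  rw [← ex_const (φ := ph G) hP hP1 hq ((te G I).disjSum ∅) 1]
  exact ex_le hP hP1 hq _ (oe_le_one _)

lemma wI_nonneg {p q : ℝ} (hp : 0 ≤ p) (hp1 : p ≤ 1) (hq : 1 ≤ q) (I : Finset V) (e : G.edgeSet) :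
    0 ≤ Pool.Agent.Helper1.UQ.wI G p q I e := by
  unfold Pool.Agent.Helper1.UQ.wI eD
  exact ex_nonneg (pr_nonneg (G := G) hp (le_refl 0)) (pr_le_one (G := G) hp1 zero_le_one) hq _
    (oe_nonneg _)

/-- Comparison with the wired measure of `Pool.Agent.Helper30.RCU`. -/
lemma wired_le_wI (hCTR : StCTR.{u}) (hREL : StREL.{u}) (hlf : ∀ v, (G.neighborSet v).Finite)
    {p q : ℝ} (hp : 0 ≤ p) (hp1 : p ≤ 1) (hq : 1 ≤ q) {I : Finset V} {e : G.edgeSet}
    (he : e ∈ te G I) :
    ex (φW G) (pW G p) q (Lf G (te G I) ∪ Rt G (BF G (te G I))) (oe (Sum.inl e)) ≤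
      wI G p q I e := by
  have hP := pW_nonneg G hp
  have hP1 := pW_le_one G hp1
  obtain ⟨σ, hσ⟩ : ∃ σ : V → Option V, σ = fun v => if v ∈ I then some v else none := ⟨_, rfl⟩
  have h1 := hCTR V (Option V) (WE G) (φW G) σ (pW G p) q hP hP1 hq
    (Lf G (te G I) ∪ Rt G (BF G (te G I))) (oe (Sum.inl e)) (oe_nonneg _) (oe_mono _)
  refine h1.trans ?_
  have hB : ∀ v ∈ BF G (te G I), v ∉ I := by
    intro v hv hvI
    obtain ⟨-, e', he', hve'⟩ := mem_filter.mp hv
    exact he' ((mem_te hlf).mpr ⟨v, hve', hvI⟩)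
  have h2 := ex_loops (φ := cm (φW G) σ) hP hP1 hq (Lf G (te G I)) (Rt G (BF G (te G I)))
    (oe (Sum.inl e)) ?_ ?_
  · refine (le_of_eq ((congrArg (fun E => ex (cm (φW G) σ) (pW G p) q E (oe (Sum.inl e)))
      ?_).trans h2)).trans ?_
    · ext x
      simp only [mem_union_any]
    have hmap1 : Lf G (te G I) = (te G I).map Function.Embedding.inl := rfl
    have r1 := (hREL (Option V) (Option V) G.edgeSet (WE G) Function.Embedding.inl
      (Function.Embedding.refl _) (fun e => Sym2.map σ (e : Sym2 V)) (cm (φW G) σ) (fun _ => p)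
      (pW G p) q (fun e => by
        show Sym2.map σ (e : Sym2 V) = Sym2.map (fun x => x) (Sym2.map σ (e : Sym2 V))
        rw [Sym2.map_id']; rfl) (fun _ => rfl) (te G I) (oe (Sum.inl e))).1
    have r2 := (hREL (Option V) (Option V) G.edgeSet (GE G) Function.Embedding.inl
      (Function.Embedding.refl _) (fun e => Sym2.map σ (e : Sym2 V)) (pI G I) (fun _ => p)
      (pr G p 0) q (fun e => by
        show Sym2.map (sg I) (Sym2.map some (e : Sym2 V)) =
          Sym2.map (fun x => x) (Sym2.map σ (e : Sym2 V))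
        rw [Sym2.map_id', Sym2.map_map, hσ]; rfl) (fun _ => rfl) (te G I) (oe (Sum.inl e))).1
    have e2 : (fun ω : Finset G.edgeSet => oe (Sum.inl e : WE G) (ω.map Function.Embedding.inl)) =
        fun ω : Finset G.edgeSet => oe (Sum.inl e : GE G) (ω.map Function.Embedding.inl) := by
      funext ω
      unfold oe
      simp
    rw [hmap1, r1, e2, ← r2]
    unfold Pool.Agent.Helper1.UQ.wI eD
    refine le_of_eq ?_
    congr 1
    ext x
    rw [insert_eq_of_mem he]
    rcases x with x | x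
    · rw [mem_disjSum_empty_inl]; simp
    · constructor
      · intro h; simp at h
      · intro h; exact absurd h not_mem_disjSum_empty_inr
  · intro x hx
    rcases x with x | ⟨a, b⟩
    · exact absurd hx not_mem_Rt_inl
    · obtain ⟨ha, hb⟩ := mem_Rt_inr.mp hx
      refine ⟨none, ?_⟩
      show Sym2.map σ s(a, b) = _
      rw [Sym2.map_mk, hσ]
      simp [hB a ha, hB b hb]
  · intro x hx ω
    have hxe : x ≠ Sum.inl e := by
      rintro rfl
      exact not_mem_Rt_inl hx
    exact oe_insert hxe ω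

/-- Comparison with the free measure of `Pool.Agent.Helper30.RCU`. -/
lemma fI_eq_free (hREL : StREL.{u}) {p q : ℝ} (I : Finset V) (e : G.edgeSet) :
    fI G p q I e = ex (φW G) (pW G p) q (Lf G (te G I)) (oe (Sum.inl e)) := by
  have hmap1 : Lf G (te G I) = (te G I).map Function.Embedding.inl := rfl
  have hmap2 : (te G I).disjSum (∅ : Finset V) = (te G I).map Function.Embedding.inl := by
    ext x
    rcases x with x | x
    · rw [mem_disjSum_empty_inl]; simp
    · constructor
      · intro h; exact absurd h not_mem_disjSum_empty_inr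
      · intro h; simp at h
  have r1 := (hREL V V G.edgeSet (WE G) Function.Embedding.inl
    (Function.Embedding.refl _) (fun e => (e : Sym2 V)) (φW G) (fun _ => p)
    (pW G p) q (fun e => by
      show (e : Sym2 V) = Sym2.map (fun x => x) (e : Sym2 V)
      rw [Sym2.map_id']; rfl) (fun _ => rfl) (te G I) (oe (Sum.inl e))).1
  have r2 := (hREL V (Option V) G.edgeSet (GE G) Function.Embedding.inl
    Function.Embedding.some (fun e => (e : Sym2 V)) (ph G) (fun _ => p)
    (pr G p 0) q (fun e => rfl) (fun _ => rfl) (te G I) (oe (Sum.inl e))).1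
  have e2 : (fun ω : Finset G.edgeSet => oe (Sum.inl e : WE G) (ω.map Function.Embedding.inl)) =
      fun ω : Finset G.edgeSet => oe (Sum.inl e : GE G) (ω.map Function.Embedding.inl) := by
    funext ω
    unfold oe
    simp
  unfold fI
  rw [hmap1, r1, e2, ← r2, hmap2]

/-- From `w8 ≤ f8` to the gap condition. -/
theorem gap_of_le (hCTR : StCTR.{u}) (hREL : StREL.{u}) (hlf : ∀ v, (G.neighborSet v).Finite)
    {p q : ℝ} (hp : 0 ≤ p) (hp1 : p ≤ 1) (hq : 1 ≤ q) {e : G.edgeSet}
    (h : w8 G p q e ≤ f8 G p q e) {ε : ℝ} (hε : 0 < ε) :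
    ∃ F : Finset G.edgeSet, e ∈ F ∧
      ex (φW G) (pW G p) q (Lf G F ∪ Rt G (BF G F)) (oe (Sum.inl e)) -
        ex (φW G) (pW G p) q (Lf G F) (oe (Sum.inl e)) ≤ ε := by
  have h1 : w8 G p q e < w8 G p q e + ε / 2 := by linarith
  have h2 : f8 G p q e - ε / 2 < f8 G p q e := by linarith
  obtain ⟨I, hI⟩ : ∃ I : Finset V, wI G p q I e < w8 G p q e + ε / 2 :=
    exists_lt_of_ciInf_lt h1
  obtain ⟨J, hJ⟩ : ∃ J : Finset V, f8 G p q e - ε / 2 < fI G p q J e :=
    exists_lt_of_lt_ciSup h2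
  obtain ⟨a, b, hab⟩ : ∃ a b, (e : Sym2 V) = s(a, b) := by
    induction (e : Sym2 V) with
    | _ a b => exact ⟨a, b, rfl⟩
  obtain ⟨K, hK⟩ : ∃ K : Finset V, K = insert a (I ∪ J) := ⟨_, rfl⟩
  have hIK : I ⊆ K := fun x hx => hK ▸ mem_insert_of_mem (mem_union_left _ hx)
  have hJK : J ⊆ K := fun x hx => hK ▸ mem_insert_of_mem (mem_union_right _ hx)
  have he : e ∈ te G K := (mem_te hlf).mpr ⟨a, by rw [hab]; exact Sym2.mem_mk_left a b, by
    rw [hK]; exact mem_insert_self _ _⟩
  refine ⟨te G K, he, ?_⟩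
  have h3 := wired_le_wI hCTR hREL hlf hp hp1 hq he
  have h4 := wI_anti hCTR hlf hp hp1 hq hIK e
  have h5 := fI_mono hlf hp hp1 hq hJK e
  have h6 := fI_eq_free (p := p) (q := q) hREL K e
  linarith

end Pool.Agent.Helper98.UQ
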